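import Mathlib
import Pool.Agent.H.MP_462f25_al.B

namespace Pool.Agent.Results.MP_462f25_al.Yes

open Pool.Agent.H.MP_462f25_al Filter

theorem result (G : Type) [Group G] (S : Set G) (hF : S.Finite) (hS : Subgroup.closure S = ⊤)
    (hH : Hyp S) (X : Type) [MetricSpace X] [CompactSpace X] [MulAction G X]
    [ContinuousConstSMul G X]
    (hc : ∀ γ : ℕ → G, Function.Injective γ → ∃ φ : ℕ → ℕ, StrictMono φ ∧ ∃ a b : X,
      ∀ K : Set X, IsCompact K → b ∉ K →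
        TendstoUniformlyOn (fun n y => γ (φ n) • y) (fun _ => a) atTop K)
    (L : Set X) (hL : IsCompact L) (_ : ∀ g : G, ∀ y ∈ L, g • y ∈ L) (f : GB S ≃ₜ L)
    (he : ∀ (g : G) (β γ : Ray S), (∀ n, γ.1 n = g * β.1 n) →
      (f (Quot.mk _ γ) : X) = g • (f (Quot.mk _ β) : X)) :
    ∃ K : Set X, IsCompact K ∧ K ⊆ Lᶜ ∧ ∀ x ∈ Lᶜ, ∃ g : G, ∃ y ∈ K, x = g • y := by
  have hr : Set.range (fun ξ => (f ξ : X)) = L := by
    rw [← Function.comp_def, Set.range_comp, f.surjective.range_eq]; simp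
  obtain ⟨K, h1, h2, h3⟩ := main hS hF hH
    (fun γ h => (hc γ h).imp fun _ h => ⟨h.1, h.2.imp fun _ h => h.imp fun _ h K h1 h2 =>
      Metric.tendstoUniformlyOn_iff.1 (h K h1 h2)⟩) (fun ξ => (f ξ : X)) (by fun_prop)
    (Subtype.val_injective.comp f.injective) (by rwa [hr]) he
  rw [hr] at h2 h3
  exact ⟨K, h1, h2, fun x hx => (h3 x hx).elim fun g hg => ⟨g⁻¹, _, hg, by simp⟩⟩

end Pool.Agent.Results.MP_462f25_al.Yes
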